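import Pool.Agent.H36.EX.Univ

/-!
# The gaps of every sifted set have all the moments of Cramér's model

In Cramér's random model the gaps, divided by their mean value, are exponentially distributed and their `j`-th moment
tends to `j!`, for every `j`; the conjecture on the largest gap is taken from this model.  The known long gaps between
primes come from the choice of one residue class `a_p` modulo each small prime `p` and of a window which is covered by
these classes.  Here we show that, WHATEVER the classes `a_p` are, for EVERY set `P` of primes `p ≤ y`, the sifted set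
follows the model in EVERY interval of length `Y ≥ y ^ K`, where `K` depends on the precision `ε` and on the order `k`
only.  There is no assumption on `P` and none on the size of `y`.  With `δ` the product of `1 - 1 / p` over `P`:

(1) the sum of the `j`-th powers of the gaps is at most `C Y / δ ^ (j - 1)` for `1 ≤ j ≤ k`; and for all `λ ≥ 1`, for all
but `C Y / λ ^ k` of the integers `n` of the interval, EVERY window `(n, n + H]` with `H δ ≥ λ`, without any upper bound
for `H`, has the expected number of survivors up to the factor `1 ± ε`;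

(2) neither the classes nor the interval matter: for `y ≥ 2`, two choices of the classes and two such intervals, the sums of
the `j`-th powers of the gaps, divided by the lengths of the intervals, differ by at most `ε / δ ^ (j - 1)`; the numbers of
the gaps longer than `T`, divided by the lengths, by at most `ε δ`, for all `T`; the distributions of the number of
survivors in windows of expectation `≤ k` by at most `ε`;

(3) if `δ ≤ v`, the sum of the `j`-th powers of the gaps is `j! Y / δ ^ (j - 1)` up to the factor `1 ± ε`; the number of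
the gaps longer than `T` is `Y δ exp (- T δ)` up to `ε Y δ`, for all `T`; the number of survivors in windows of bounded
expectation has the Poisson distribution;

(4) exponential tails: in intervals of length `Y ≥ y ^ m`, for every `m`, at most `B Y exp (- c min (T δ, T ^ e, m))` of
the windows of length `T` contain no survivor, and the same bound holds for the number of the windows in which the number
of survivors is not the expected one up to the factor `1 ± ε`, if `T ^ (2 e) ≤ m log y`; the constants `c, e, B` depend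
on `ε` only.

By the Chinese remainder theorem these are statements on all intervals of length `Y` of the reduced residues modulo the
product `q` of the primes of `P`: (1) is the theorem of Montgomery and Vaughan (the conjecture of Erdős), which is the
case where `Y` is a multiple of `q`, and (2) says that all intervals of length at least `y ^ K` are like the full period.
In the case where `Y` is a large multiple of `q` the number `m` disappears from (4) and the tail is exponential.

For the set of all primes `≤ y` and `a_p = 0` the survivors are the integers without prime factors `≤ y`, which have at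
most `r` prime factors if they are smaller than `y ^ (r + 1)`.
-/

set_option autoImplicit false

open Filter Finset

namespace Pool.Agent.Results.MP_3bc45c_nt.AllMomentsOfGaps

/-- the survivors: `m` is not congruent to `a p` modulo `p` for any `p` in `P` -/
def Free (P : Finset ℕ) (a : ℕ → ℕ) (m : ℕ) : Prop := ∀ p ∈ P, ¬ m ≡ a p [MOD p]

open Classical in
/-- the number of survivors in `(n, n + H]` -/
noncomputable def freeIn (P : Finset ℕ) (a : ℕ → ℕ) (n H : ℕ) : ℕ := ((Ioc n (n + H)).filter (Free P a)).card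

/-- the density: the product of `1 - 1 / p` over `P` -/
noncomputable def density (P : Finset ℕ) : ℝ := ∏ p ∈ P, (1 - 1 / (p : ℝ))

/-- the pairs of consecutive elements of `S` -/
def gapPairs (S : Finset ℕ) : Finset (ℕ × ℕ) :=
  (S ×ˢ S).filter (fun x => x.1 < x.2 ∧ ∀ y ∈ S, ¬ (x.1 < y ∧ y < x.2))

open Classical in
/-- the `j`-th moment of the gaps between consecutive integers with the property `F` in `(N, N + Y]` -/
noncomputable def gapMoment (F : ℕ → Prop) (N Y j : ℕ) : ℝ :=
  ∑ x ∈ gapPairs ((Ioc N (N + Y)).filter F), ((x.2 - x.1 : ℕ) : ℝ) ^ j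

open Classical in
/-- the number of the gaps longer than `T` between consecutive integers with the property `F` in `(N, N + Y]` -/
noncomputable def longGaps (F : ℕ → Prop) (N Y T : ℕ) : ℕ :=
  ((gapPairs ((Ioc N (N + Y)).filter F)).filter (fun x => T < x.2 - x.1)).card

open Pool.Agent.H36.RW Pool.Agent.H36.BF Pool.Agent.H373R2.T7 Pool.Agent.H36.BE Pool.Agent.H36.KT Pool.Agent.H36.LH
open Pool.Agent.H36.GP

lemma sub_pz (P : Finset ℕ) (y : ℕ) (hP : ∀ p ∈ P, p.Prime ∧ p ≤ y) : P ⊆ pz y :=
  fun p hp => mem_pz.2 ⟨(hP p hp).2, (hP p hp).1⟩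

open Classical in
/-- every window -/
lemma windows (ε : ℝ) (hε : 0 < ε) (k : ℕ) :
    ∃ (K : ℕ) (C : ℝ), 0 < C ∧ ∀ y Y : ℕ, y ^ K ≤ Y → ∀ P : Finset ℕ, P ⊆ pz y → ∀ (a : ℕ → ℕ) (N : ℕ) (lam : ℝ),
      1 ≤ lam → (((Ioc N (N + Y)).filter (fun n => ∃ H : ℕ, lam ≤ H * density P ∧
        ¬ |(freeIn P a n H : ℝ) - H * density P| ≤ ε * (H * density P))).card : ℝ) ≤ C * (Y / lam ^ k) := by
  have hm0 : 0 < min ε 1 := lt_min hε one_pos
  obtain ⟨K, C, hC, h⟩ := Pool.Agent.H36.EX.allWindows (min ε 1) hm0 (min_le_right _ _) k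
  refine ⟨K, C, hC, ?_⟩
  intro y Y hY P hP a N lam hlam
  refine le_trans (Nat.cast_le.2 (card_le_card ?_)) (h y Y hY P hP a N lam hlam)
  intro n hn
  rw [mem_filter] at hn ⊢
  obtain ⟨hn1, H, hH1, hH2⟩ := hn
  refine ⟨hn1, H, hH1, ?_⟩
  rw [not_le] at hH2
  refine lt_of_le_of_lt ?_ hH2
  exact mul_le_mul_of_nonneg_right (min_le_left _ _) (by
    have h1 : (0 : ℝ) < lam := by linarith
    exact h1.le.trans hH1)

open Classical in
/-- part (4) -/
lemma part4 (ε : ℝ) (hε : 0 < ε) : ∃ (c e B : ℝ), 0 < c ∧ 0 < e ∧ 0 < B ∧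
    ∀ (y m : ℕ) (P : Finset ℕ), (∀ p ∈ P, p.Prime ∧ p ≤ y) → ∀ Y : ℕ, y ^ m ≤ Y → ∀ (a : ℕ → ℕ) (N T : ℕ),
      (((Ioc N (N + Y)).filter (fun n => freeIn P a n T = 0)).card : ℝ) ≤
        B * (Y * Real.exp (-(c * min (T * density P) (min ((T : ℝ) ^ e) m)))) ∧
      ((T : ℝ) ^ (2 * e) ≤ m * Real.log y → (((Ioc N (N + Y)).filter (fun n =>
        ¬ |(freeIn P a n T : ℝ) - T * density P| ≤ ε * (T * density P))).card : ℝ) ≤
        B * (Y * Real.exp (-(c * min (T * density P) (min ((T : ℝ) ^ e) m))))) := by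
  have hm0 : 0 < min ε (1 / 2) := lt_min hε (by norm_num)
  obtain ⟨c, e, B, hc, he, hB, h⟩ := Pool.Agent.H36.EX.expDev (min ε (1 / 2)) hm0
    (lt_of_le_of_lt (min_le_right _ _) (by norm_num))
  refine ⟨c, e, B, hc, he, hB, ?_⟩
  intro y m P hP' Y hY a N T
  have hP := sub_pz P y hP'
  have hW := Wp_pos' P y hP
  obtain ⟨h1, h2⟩ := h y m Y hY P hP a N T
  refine ⟨?_, ?_⟩
  · rw [Em_Wc] at h2
    simp only [mem_singleton] at h2
    exact h2
  · intro hT
    refine le_trans ?_ (h1 hT)
    rw [Nat.cast_le]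
    apply card_le_card
    intro n hn
    rw [mem_filter] at hn ⊢
    refine ⟨hn.1, ?_⟩
    have h3 := hn.2
    rw [not_le] at h3
    refine lt_of_le_of_lt ?_ h3
    exact mul_le_mul_of_nonneg_right (min_le_left _ _) (mul_nonneg (Nat.cast_nonneg _) hW.le)

open Classical in
/-- part (3) for large `y` -/
lemma part3 (ε : ℝ) (hε : 0 < ε) (k : ℕ) : ∃ (K : ℕ) (v : ℝ), 0 < v ∧ ∀ᶠ y : ℕ in atTop,
    ∀ Y : ℕ, y ^ K ≤ Y → ∀ P : Finset ℕ, P ⊆ pz y → density P ≤ v → ∀ (a : ℕ → ℕ) (N : ℕ),
      (∀ j : ℕ, 1 ≤ j → j ≤ k → |gapMoment (Free P a) N Y j - j.factorial * (Y / density P ^ (j - 1))| ≤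
        ε * (Y / density P ^ (j - 1))) ∧
      (∀ T : ℕ, |(longGaps (Free P a) N Y T : ℝ) - Y * density P * Real.exp (-(T * density P))| ≤
        ε * (Y * density P)) ∧
      (∀ H : ℕ, H * density P ≤ k → ∀ J : Finset ℕ,
        |(((Ioc N (N + Y)).filter (fun n => freeIn P a n H ∈ J)).card : ℝ) -
          Y * ∑ j ∈ J, Real.exp (-(H * density P)) * (H * density P) ^ j / j.factorial| ≤ ε * Y) := by
  obtain ⟨K2, v2, hv2, hlaw⟩ := lawV k ε hε
  obtain ⟨K3, v3, hv3, hgap⟩ := gapPV ε hε
  obtain ⟨K4, hfirst⟩ := mom0V ε hε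
  have hmom : ∀ m : ℕ, ∃ (K : ℕ) (v : ℝ), 0 < v ∧ (1 ≤ m → ∀ᶠ y : ℕ in atTop, ∀ Y : ℕ, y ^ K ≤ Y →
      ∀ P : Finset ℕ, P ⊆ pz y → Wp P ≤ v → ∀ (a : ℕ → ℕ) (N : ℕ),
      |∑ x ∈ consec ((Ioc N (N + Y)).filter (FreeS P a)), ((x.2 - x.1 : ℕ) : ℝ) ^ (m + 1) -
        (m + 1).factorial * (Y / Wp P ^ m)| ≤ ε * (Y / Wp P ^ m)) := by
    intro m
    by_cases hm : 1 ≤ m
    · obtain ⟨K, v, hv, hK⟩ := momV m hm ε hε
      exact ⟨K, v, hv, fun _ => hK⟩
    · exact ⟨0, 1, one_pos, fun h => absurd h hm⟩
  choose KM vM hvM hKM using hmom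
  have hev : ∀ᶠ y : ℕ in atTop, ∀ m ∈ Icc 1 k, ∀ Y : ℕ, y ^ KM m ≤ Y →
      ∀ P : Finset ℕ, P ⊆ pz y → Wp P ≤ vM m → ∀ (a : ℕ → ℕ) (N : ℕ),
      |∑ x ∈ consec ((Ioc N (N + Y)).filter (FreeS P a)), ((x.2 - x.1 : ℕ) : ℝ) ^ (m + 1) -
        (m + 1).factorial * (Y / Wp P ^ m)| ≤ ε * (Y / Wp P ^ m) := by
    rw [eventually_all_finset]
    intro m hm
    exact hKM m (mem_Icc.1 hm).1
  -- a common bound for the density
  have hv0 : ∃ v0 : ℝ, 0 < v0 ∧ ∀ m ∈ Icc 1 k, v0 ≤ vM m := by
    rcases (Icc 1 k).eq_empty_or_nonempty with he | he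
    · exact ⟨1, one_pos, by rw [he]; simp⟩
    · obtain ⟨m0, hm0, hmin⟩ := exists_min_image (Icc 1 k) vM he
      exact ⟨vM m0, hvM m0, fun m hm => hmin m hm⟩
  obtain ⟨v0, hv0, hv0'⟩ := hv0
  refine ⟨K2 + K3 + K4 + ∑ m ∈ Icc 1 k, KM m, min v0 (min v2 v3), lt_min hv0 (lt_min hv2 hv3), ?_⟩
  filter_upwards [hlaw, hgap, hfirst, hev, eventually_ge_atTop 1] with y h2 h3 h4 h5 hy1 Y hY P hP hPv a N
  have hle : ∀ e : ℕ, e ≤ K2 + K3 + K4 + ∑ m ∈ Icc 1 k, KM m → y ^ e ≤ Y := fun e he =>
    (Nat.pow_le_pow_right hy1 he).trans hY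
  have hd0 : Wp P ≤ v0 := hPv.trans (min_le_left _ _)
  have hd2 : Wp P ≤ v2 := hPv.trans ((min_le_right _ _).trans (min_le_left _ _))
  have hd3 : Wp P ≤ v3 := hPv.trans ((min_le_right _ _).trans (min_le_right _ _))
  refine ⟨?_, ?_, ?_⟩
  · intro j hj hjk
    obtain ⟨m, rfl⟩ : ∃ m, j = m + 1 := ⟨j - 1, by omega⟩
    rw [Nat.add_sub_cancel]
    rcases Nat.eq_zero_or_pos m with hm | hm
    · subst hm
      have h6 := h4 Y (hle K4 (by omega)) P hP a N
      unfold gapMoment
      simp only [zero_add, Nat.factorial_one, Nat.cast_one, one_mul, pow_zero, div_one, pow_one]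
      exact h6
    · have hmem : m ∈ Icc 1 k := mem_Icc.2 ⟨hm, by omega⟩
      have hKm : KM m ≤ ∑ m ∈ Icc 1 k, KM m := single_le_sum (fun _ _ => Nat.zero_le _) hmem
      exact h5 m hmem Y (hle (KM m) (by omega)) P hP (hd0.trans (hv0' m hmem)) a N
  · intro T
    exact h3 Y (hle K3 (by omega)) P hP hd3 a N T
  · intro H hH J
    exact h2 Y (hle K2 (by omega)) P hP hd2 a N H hH J

open Classical in
theorem result (ε : ℝ) (hε : 0 < ε) (k : ℕ) : ∃ (K : ℕ) (C v : ℝ), 0 < C ∧ 0 < v ∧
    (∀ (y : ℕ) (P : Finset ℕ), (∀ p ∈ P, p.Prime ∧ p ≤ y) → ∀ Y : ℕ, y ^ K ≤ Y → ∀ (a : ℕ → ℕ) (N : ℕ),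
      -- the order of all moments of the gaps
      (∀ j : ℕ, 1 ≤ j → j ≤ k → gapMoment (Free P a) N Y j ≤ C * (Y / density P ^ (j - 1))) ∧
      -- every window, outside a small exceptional set
      (∀ lam : ℝ, 1 ≤ lam → (((Ioc N (N + Y)).filter (fun n => ∃ H : ℕ, lam ≤ H * density P ∧
        ¬ |(freeIn P a n H : ℝ) - H * density P| ≤ ε * (H * density P))).card : ℝ) ≤ C * (Y / lam ^ k)) ∧
      -- small density
      (density P ≤ v →
        -- all moments of the gaps
        (∀ j : ℕ, 1 ≤ j → j ≤ k → |gapMoment (Free P a) N Y j - j.factorial * (Y / density P ^ (j - 1))| ≤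
          ε * (Y / density P ^ (j - 1))) ∧
        -- the distribution of the gaps
        (∀ T : ℕ, |(longGaps (Free P a) N Y T : ℝ) - Y * density P * Real.exp (-(T * density P))| ≤
          ε * (Y * density P)) ∧
        -- the Poisson distribution
        (∀ H : ℕ, H * density P ≤ k → ∀ J : Finset ℕ,
          |(((Ioc N (N + Y)).filter (fun n => freeIn P a n H ∈ J)).card : ℝ) -
            Y * ∑ j ∈ J, Real.exp (-(H * density P)) * (H * density P) ^ j / j.factorial| ≤ ε * Y))) ∧
    -- neither the classes nor the interval matter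
    (∀ (y : ℕ) (P : Finset ℕ), 2 ≤ y → (∀ p ∈ P, p.Prime ∧ p ≤ y) → ∀ Y Y' : ℕ, y ^ K ≤ Y → y ^ K ≤ Y' →
      ∀ (a a' : ℕ → ℕ) (N N' : ℕ),
      -- the moments of the gaps
      (∀ j : ℕ, 1 ≤ j → j ≤ k →
        |gapMoment (Free P a) N Y j / Y - gapMoment (Free P a') N' Y' j / Y'| ≤ ε / density P ^ (j - 1)) ∧
      -- the distribution of the gaps
      (∀ T : ℕ, |(longGaps (Free P a) N Y T : ℝ) / Y - longGaps (Free P a') N' Y' T / Y'| ≤ ε * density P) ∧
      -- the distribution of the number of survivors in windows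
      (∀ H : ℕ, H * density P ≤ k → ∀ J : Finset ℕ,
        |(((Ioc N (N + Y)).filter (fun n => freeIn P a n H ∈ J)).card : ℝ) / Y -
          (((Ioc N' (N' + Y')).filter (fun n => freeIn P a' n H ∈ J)).card : ℝ) / Y'| ≤ ε)) ∧
    -- exponential tails
    (∃ (c e B : ℝ), 0 < c ∧ 0 < e ∧ 0 < B ∧
      ∀ (y m : ℕ) (P : Finset ℕ), (∀ p ∈ P, p.Prime ∧ p ≤ y) → ∀ Y : ℕ, y ^ m ≤ Y → ∀ (a : ℕ → ℕ) (N T : ℕ),
        (((Ioc N (N + Y)).filter (fun n => freeIn P a n T = 0)).card : ℝ) ≤
          B * (Y * Real.exp (-(c * min (T * density P) (min ((T : ℝ) ^ e) m)))) ∧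
        ((T : ℝ) ^ (2 * e) ≤ m * Real.log y → (((Ioc N (N + Y)).filter (fun n =>
          ¬ |(freeIn P a n T : ℝ) - T * density P| ≤ ε * (T * density P))).card : ℝ) ≤
          B * (Y * Real.exp (-(c * min (T * density P) (min ((T : ℝ) ^ e) m)))))) := by
  obtain ⟨K1, C1, hC1, hmom⟩ := momFull k
  obtain ⟨K2, C2, hC2, hwin⟩ := windows ε hε k
  obtain ⟨K3, v3, hv3, h3⟩ := part3 (ε / 2) (by positivity) k
  obtain ⟨y0, hy0⟩ := eventually_atTop.1 h3
  obtain ⟨v4, hv4, hlarge⟩ := large_y (y0 + 1)
  have hv : 0 < min v3 v4 := lt_min hv3 hv4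
  obtain ⟨K4, huniv⟩ := Pool.Agent.H36.EX.univB (min v3 v4) hv ε hε k
  have hcr : ∀ (y : ℕ) (P : Finset ℕ), P ⊆ pz y → density P ≤ min v3 v4 → ∀ Y : ℕ, y ^ (K1 + K2 + K3 + K4) ≤ Y →
      ∀ (a : ℕ → ℕ) (N : ℕ),
      (∀ j : ℕ, 1 ≤ j → j ≤ k → |gapMoment (Free P a) N Y j - j.factorial * (Y / density P ^ (j - 1))| ≤
        ε / 2 * (Y / density P ^ (j - 1))) ∧
      (∀ T : ℕ, |(longGaps (Free P a) N Y T : ℝ) - Y * density P * Real.exp (-(T * density P))| ≤
        ε / 2 * (Y * density P)) ∧
      (∀ H : ℕ, H * density P ≤ k → ∀ J : Finset ℕ,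
        |(((Ioc N (N + Y)).filter (fun n => freeIn P a n H ∈ J)).card : ℝ) -
          Y * ∑ j ∈ J, Real.exp (-(H * density P)) * (H * density P) ^ j / j.factorial| ≤ ε / 2 * Y) := by
    intro y P hP hPv Y hY a N
    have hy := hlarge y P hP (hPv.trans (min_le_right _ _))
    exact hy0 y (by omega) Y ((Nat.pow_le_pow_right (by omega) (by omega)).trans hY) P hP
      (hPv.trans (min_le_left _ _)) a N
  refine ⟨K1 + K2 + K3 + K4, C1 + C2, min v3 v4, by positivity, hv, ?_, ?_, part4 ε hε⟩
  · intro y P hP' Y hY a N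
    have hP := sub_pz P y hP'
    have hW := Wp_pos' P y hP
    have hd0 : 0 < density P := hW
    have hpow : Y = 0 ∨ ∀ e : ℕ, e ≤ K1 + K2 + K3 + K4 → y ^ e ≤ Y := by
      rcases Nat.eq_zero_or_pos Y with h | h
      · exact Or.inl h
      · right
        intro e he
        rcases Nat.eq_zero_or_pos y with hy | hy
        · rw [hy]
          rcases Nat.eq_zero_or_pos e with h0 | h0
          · rw [h0, pow_zero]
            exact h
          · rw [zero_pow h0.ne']
            exact Nat.zero_le _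
        · exact (Nat.pow_le_pow_right hy he).trans hY
    have hC12 : C1 ≤ C1 + C2 := by linarith
    have hC21 : C2 ≤ C1 + C2 := by linarith
    refine ⟨?_, ?_, ?_⟩
    · intro j hj hjk
      have hX0 : 0 ≤ (Y : ℝ) / density P ^ (j - 1) := by positivity
      rcases hpow with h | h
      · subst h
        have h1 : (Ioc N (N + 0)).filter (Free P a) = ∅ := by simp
        unfold gapMoment
        rw [h1]
        have h2 : gapPairs ∅ = ∅ := by unfold gapPairs; simp
        rw [h2, sum_empty]
        positivity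
      · refine le_trans ?_ (mul_le_mul_of_nonneg_right hC12 hX0)
        exact hmom y Y (h K1 (by omega)) P hP a N j hj hjk
    · intro lam hlam
      have hlam0 : 0 < lam := by linarith
      have hX0 : 0 ≤ (Y : ℝ) / lam ^ k := by positivity
      rcases hpow with h | h
      · subst h
        rw [Nat.add_zero, Ioc_self, filter_empty, card_empty, Nat.cast_zero]
        positivity
      · refine le_trans ?_ (mul_le_mul_of_nonneg_right hC21 hX0)
        exact hwin y Y (h K2 (by omega)) P hP a N lam hlam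
    · intro hPv
      obtain ⟨g1, g2, g3⟩ := hcr y P hP hPv Y hY a N
      have hεε : ε / 2 ≤ ε := by linarith
      refine ⟨fun j hj hjk => (g1 j hj hjk).trans ?_, fun T => (g2 T).trans ?_, fun H hH J => (g3 H hH J).trans ?_⟩
      · exact mul_le_mul_of_nonneg_right hεε (by positivity)
      · exact mul_le_mul_of_nonneg_right hεε (by positivity)
      · exact mul_le_mul_of_nonneg_right hεε (Nat.cast_nonneg _)
  · intro y P hy2 hP' Y Y' hY hY' a a' N N'
    have hP := sub_pz P y hP'
    have hW := Wp_pos' P y hP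
    have hd0 : 0 < density P := hW
    have hYp : (0 : ℝ) < Y := by exact_mod_cast lt_of_lt_of_le (pow_pos (by omega) _) hY
    have hYp' : (0 : ℝ) < Y' := by exact_mod_cast lt_of_lt_of_le (pow_pos (by omega) _) hY'
    rcases le_or_gt (density P) (min v3 v4) with hPv | hPv
    · obtain ⟨g1, g2, g3⟩ := hcr y P hP hPv Y hY a N
      obtain ⟨g1', g2', g3'⟩ := hcr y P hP hPv Y' hY' a' N'
      -- from the two asymptotic formulas
      have key : ∀ A B X Z E : ℝ, 0 < X → 0 < Z → ∀ R : ℝ, |A - X * R| ≤ E / 2 * X → |B - Z * R| ≤ E / 2 * Z →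
          |A / X - B / Z| ≤ E := by
        intro A B X Z E hX hZ R h1 h2
        have h3 : |A / X - R| ≤ E / 2 := by
          have e : A / X - R = (A - X * R) / X := by field_simp
          rw [e, abs_div, abs_of_pos hX, div_le_iff₀ hX]
          exact h1
        have h4 : |B / Z - R| ≤ E / 2 := by
          have e : B / Z - R = (B - Z * R) / Z := by field_simp
          rw [e, abs_div, abs_of_pos hZ, div_le_iff₀ hZ]
          exact h2
        rw [abs_le] at h3 h4 ⊢
        constructor <;> linarith [h3.1, h3.2, h4.1, h4.2]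
      refine ⟨?_, ?_, ?_⟩
      · intro j hj hjk
        have hdj : 0 < density P ^ (j - 1) := by positivity
        apply key _ _ _ _ _ hYp hYp' (j.factorial / density P ^ (j - 1))
        · have h1 := g1 j hj hjk
          have e1 : (Y : ℝ) * (j.factorial / density P ^ (j - 1)) = j.factorial * (Y / density P ^ (j - 1)) := by ring
          have e2 : ε / density P ^ (j - 1) / 2 * Y = ε / 2 * (Y / density P ^ (j - 1)) := by ring
          rw [e1, e2]
          exact h1
        · have h1 := g1' j hj hjk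
          have e1 : (Y' : ℝ) * (j.factorial / density P ^ (j - 1)) = j.factorial * (Y' / density P ^ (j - 1)) := by ring
          have e2 : ε / density P ^ (j - 1) / 2 * Y' = ε / 2 * (Y' / density P ^ (j - 1)) := by ring
          rw [e1, e2]
          exact h1
      · intro T
        apply key _ _ _ _ _ hYp hYp' (density P * Real.exp (-(T * density P)))
        · have h1 := g2 T
          have e1 : (Y : ℝ) * (density P * Real.exp (-(T * density P))) = Y * density P * Real.exp (-(T * density P)) := by ring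
          have e2 : ε * density P / 2 * Y = ε / 2 * (Y * density P) := by ring
          rw [e1, e2]
          exact h1
        · have h1 := g2' T
          have e1 : (Y' : ℝ) * (density P * Real.exp (-(T * density P))) = Y' * density P * Real.exp (-(T * density P)) := by ring
          have e2 : ε * density P / 2 * Y' = ε / 2 * (Y' * density P) := by ring
          rw [e1, e2]
          exact h1
      · intro H hH J
        exact key _ _ _ _ _ hYp hYp' _ (g3 H hH J) (g3' H hH J)
    · have hpw : ∀ Z : ℕ, y ^ (K1 + K2 + K3 + K4) ≤ Z → y ^ K4 ≤ Z := fun Z hZ =>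
        (Nat.pow_le_pow_right (by omega) (by omega)).trans hZ
      exact huniv y Y Y' hy2 (hpw Y hY) (hpw Y' hY') P hP hPv.le a a' N N'

end Pool.Agent.Results.MP_3bc45c_nt.AllMomentsOfGaps
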