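import Pool.Agent.H22.RC.Fin
import Pool.Graph.R_pool_sql_team_seeded_b0a926ef.R529.BU.Lim

/-!
# Record gaps followed by an excess of primes, at every scale `(log n) ^ B`

Author: helper22.

Let `f(x) = log x (log₂ x)² log₄ x / (log₃ x)²`, the size of the largest gaps between consecutive primes which
the starting files establish, and let `ω` be Buchstab's function. For every `B > 1` and every
`κ < e ^ γ ω(B)` there is `c > 0` such that, for all large `X`, more than `X ^ (9/10)` integers `n` of `(X, 3X]`
have both properties:
* there is no prime within `c f(X)` of `n`, so that `n` lies in a gap of record size;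
* `π(n + (log n) ^ B) - π(n) ≥ κ (log n) ^ (B - 1)`.
As `e ^ γ ω(B) = e ^ γ / B` for `1 < B ≤ 2`, which is greater than `1` for `B < e ^ γ = 1.78...`, and as
`e ^ γ ω(B) > 1` for arbitrarily large `B` (second part), a record gap can be followed at once by intervals with
more primes than the prime number theorem predicts, by a constant factor which tends to `e ^ γ` as `B` tends
to `1`. In the known proofs of long gaps the moduli are used up for the gap and nothing is known about the
primes nearby; in the theorem of Maier (1985) nothing is known about gaps.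

Proof. The big modulus is the product of the primes up to `y = log X / 1000` (up to the exceptional primes and the
primes left out by the relative theorem of Bombieri and Vinogradov of the starting files). The class is `0` for the
primes up to `(log y) ^ 2` and above `y ^ (log₃ y / (10 log₂ y))`; these classes remove almost all of a window of size
`c f(X)` around the centre (Rankin), and from `[1, (log X) ^ B]` exactly the integers which are not of the form
`m k`, `m` composed of the remaining primes and `k` without prime factors up to `y`; their number comes from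
Buchstab's asymptotic formula and from Rankin's trick for the sum of `1 / m`. The classes of the remaining primes are
chosen by averaging a signed weight, with an upper bound sieve for arbitrary classes, so that at the same time the
window keeps at most `ε log X` integers and the long interval keeps its expected share. The integers left in the
window are then removed by the repelling weights of the starting files (with primes up to a small power of `X`),
whose sum over the primes in shifted classes is evaluated for all the shifts of the long interval.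
-/

set_option autoImplicit false

open Filter

namespace Pool.Agent.Results.MP_3bc45c_nt.RecordGapsFollowedByExcess

/-- `ω` is Buchstab's function: it is continuous on `[1, ∞)`, `u ω(u) = 1` for `1 ≤ u ≤ 2` and
`u ω(u) = 1 + ∫_1^(u-1) ω` for `u ≥ 2` -/
def IsBuchstab (ω : ℝ → ℝ) : Prop :=
  ContinuousOn ω (Set.Ici 1) ∧ (∀ u, 1 ≤ u → u ≤ 2 → u * ω u = 1) ∧
    ∀ u, 2 ≤ u → u * ω u = 1 + ∫ s in (1 : ℝ)..(u - 1), ω s

/-- `log x (log₂ x)² log₄ x / (log₃ x)²` -/
noncomputable def f (x : ℝ) : ℝ :=
  Real.log x * (Real.log (Real.log x)) ^ 2 * Real.log (Real.log (Real.log (Real.log x))) /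
    (Real.log (Real.log (Real.log x))) ^ 2

/-- the integers `n` of `(X, 3X]` without a prime within `r` of `n` and with
`π(n + (log n) ^ B) - π(n) ≥ κ (log n) ^ (B - 1)` -/
def good (r κ B X : ℝ) : Set ℕ :=
  {n : ℕ | X < n ∧ (n : ℝ) ≤ 3 * X ∧ (∀ p : ℕ, p.Prime → r < |(p : ℝ) - n|) ∧
    κ * (Real.log n) ^ (B - 1) ≤ (Nat.primeCounting ⌊(n : ℝ) + (Real.log n) ^ B⌋₊ : ℝ) - Nat.primeCounting n}

theorem isBuchstab_om : IsBuchstab Pool.Agent.R529.BU.om :=
  ⟨Pool.Agent.R529.BU.om_cont.continuousOn, Pool.Agent.R529.BU.om_one_two, Pool.Agent.R529.BU.om_two⟩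

theorem unique_aux (ω : ℝ → ℝ) (h : IsBuchstab ω) (n : ℕ) :
    ∀ u : ℝ, 1 ≤ u → u ≤ n + 2 → ω u = Pool.Agent.R529.BU.om u := by
  obtain ⟨-, h1, h2⟩ := h
  have hbase : ∀ u : ℝ, 1 ≤ u → u ≤ 2 → ω u = Pool.Agent.R529.BU.om u := by
    intro u hu1 hu2
    have a1 := h1 u hu1 hu2
    have a2 := Pool.Agent.R529.BU.om_one_two u hu1 hu2
    exact mul_left_cancel₀ (show u ≠ 0 by linarith) (a1.trans a2.symm)
  induction n with
  | zero =>
    intro u hu1 hu2
    exact hbase u hu1 (by push_cast at hu2; linarith)
  | succ n ih =>
    intro u hu1 hu2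
    rcases le_total u 2 with h3 | h3
    · exact hbase u hu1 h3
    · have a1 := h2 u h3
      have a2 := Pool.Agent.R529.BU.om_two u h3
      have a3 : ∫ s in (1 : ℝ)..(u - 1), ω s = ∫ s in (1 : ℝ)..(u - 1), Pool.Agent.R529.BU.om s := by
        apply intervalIntegral.integral_congr
        intro s hs
        rw [Set.uIcc_of_le (by linarith)] at hs
        push_cast at hu2
        exact ih s hs.1 (by linarith [hs.2])
      rw [a3, ← a2] at a1
      exact mul_left_cancel₀ (show u ≠ 0 by linarith) a1

theorem unique (ω : ℝ → ℝ) (h : IsBuchstab ω) (u : ℝ) (hu : 1 ≤ u) : ω u = Pool.Agent.R529.BU.om u :=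
  unique_aux ω h ⌈u⌉₊ u hu (by linarith [Nat.le_ceil u])

theorem good_finite (r κ B X : ℝ) : (good r κ B X).Finite := by
  apply (Finset.finite_toSet (Finset.range (⌊3 * X⌋₊ + 1))).subset
  intro n hn
  rw [Finset.coe_range, Set.mem_Iio, Nat.lt_succ_iff]
  exact Nat.le_floor hn.2.1

theorem small (ω : ℝ → ℝ) (hω : IsBuchstab ω) (B : ℝ) (h1 : 1 < B)
    (h2 : B < Real.exp Real.eulerMascheroniConstant) :
    1 < Real.exp Real.eulerMascheroniConstant * ω B := by
  have h3 : Real.exp Real.eulerMascheroniConstant < 2 := by
    rw [← Real.exp_log (show (0:ℝ) < 2 by norm_num)]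
    apply Real.exp_lt_exp.mpr
    linarith [Real.eulerMascheroniConstant_lt_two_thirds, Real.log_two_gt_d9]
  have h4 := hω.2.1 B h1.le (h2.trans h3).le
  have h5 : ω B = 1 / B := by
    field_simp
    linarith
  rw [h5, mul_one_div, lt_div_iff₀ (by linarith)]
  linarith

/-- Record gaps followed by an excess of primes. -/
theorem result : (∃ ω, IsBuchstab ω) ∧ ∀ ω, IsBuchstab ω →
    (∀ B κ : ℝ, 1 < B → κ < Real.exp Real.eulerMascheroniConstant * ω B →
      ∃ c : ℝ, 0 < c ∧ ∀ᶠ X : ℝ in atTop, X ^ (9 / 10 : ℝ) < ((good (c * f X) κ B X).ncard : ℝ)) ∧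
    (∀ A : ℝ, ∃ B, A ≤ B ∧ 1 < Real.exp Real.eulerMascheroniConstant * ω B) ∧
    (∀ B : ℝ, 1 < B → B < Real.exp Real.eulerMascheroniConstant →
      1 < Real.exp Real.eulerMascheroniConstant * ω B) := by
  refine ⟨⟨_, isBuchstab_om⟩, fun ω hω => ⟨?_, ?_, small ω hω⟩⟩
  · intro B κ hB hκ
    rw [unique ω hω B hB.le] at hκ
    obtain ⟨c, hc, h⟩ := Pool.Agent.H22.RC.record_excess B κ hB hκ
    refine ⟨c, hc, ?_⟩
    filter_upwards [h] with X hX
    by_contra hcon
    push Not at hcon
    have hfin := good_finite (c * f X) κ B X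
    obtain ⟨n, h1, h2, h3, h4, h5⟩ := hX hfin.toFinset (by
      rw [Set.ncard_eq_toFinset_card _ hfin] at hcon
      exact hcon)
    apply h3
    rw [Set.Finite.mem_toFinset]
    exact ⟨h1, h2, h4, h5⟩
  · intro A
    obtain ⟨u, h1, h2⟩ := Pool.Agent.R529.BU.om_gt (max 1 A)
    refine ⟨u, (le_max_right _ _).trans h1, ?_⟩
    rw [unique ω hω u ((le_max_left _ _).trans h1)]
    have hE : Real.exp Real.eulerMascheroniConstant * Real.exp (-Real.eulerMascheroniConstant) = 1 := by
      rw [← Real.exp_add, add_neg_cancel, Real.exp_zero]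
    have hE0 := Real.exp_pos Real.eulerMascheroniConstant
    rw [← hE]
    exact mul_lt_mul_of_pos_left h2 hE0

end Pool.Agent.Results.MP_3bc45c_nt.RecordGapsFollowedByExcess
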