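import Mathlib
import Pool.Agent.H76.BR.Fin

/-!
# The exact order of what square weights can sieve out by large primes

The largest known prime gaps are found in two steps: the primes up to about `log X` are used to
reduce an interval to a set `n + H`, and a weight `w ≥ 0` of level `X ^ A` (a square, or a sum of
squares, as in the sieves of Selberg, Maynard and of the record in the starting files) shows that
some `n` has no element of `n + H` left after sieving by the larger primes. This works for
`|H| ≤ c log X`. Here the converse is proved: an inequality for every sum of squares `w` of functions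
of level `D`, which shows that the average number of survivors with respect to `w` is at least `K` as
soon as `|H| ≥ 2 C (K log X + m log D)`.
-/

set_option autoImplicit false

namespace Pool.Agent.Results.MP_3bc45c_nt.SquareWeightsThreshold

open Finset

theorem result : ∃ C : ℝ, 0 < C ∧ ∃ X₀ : ℝ, ∀ X : ℝ, X₀ ≤ X → ∀ (P H : Finset ℕ) (m : ℕ),
    (∀ p ∈ P, p.Prime ∧ Real.log X ≤ p ∧ (p : ℝ) ≤ X) →
    (∀ p ∈ P, ∀ a : ℕ, (H.filter (fun h => h ≡ a [MOD p])).card ≤ m) →
    ∀ D : ℝ, 1 ≤ D → ∀ (r : ℕ) (v : Fin r → ℕ → ℕ → ℝ), (∀ j d n, v j d (n + d) = v j d n) →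
    ∀ w : ℕ → ℝ, (∀ n, w n = ∑ j : Fin r,
      (∑ d ∈ (∏ p ∈ P, p).divisors.filter (fun d : ℕ => (d : ℝ) ≤ D), v j d n) ^ 2) →
    (H.card : ℝ) * ∑ n ∈ range (∏ p ∈ P, p), w n ≤
      C * (Real.log X * ∑ n ∈ range (∏ p ∈ P, p),
          w n * ((H.filter (fun h => ∀ p ∈ P, ¬ p ∣ n + h)).card : ℝ) +
        m * Real.log D * ∑ n ∈ range (∏ p ∈ P, p), w n) :=
  Pool.Agent.H76.BR.main_int

end Pool.Agent.Results.MP_3bc45c_nt.SquareWeightsThreshold
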