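import Mathlib
import Pool.Agent.H76.TT.Mn

/-!
# Length of the interval against length of the gap, in almost all short intervals

Write `ρ = log log X / log E`. For every `A` and every `δ < 1`, uniformly in
`log log X ≤ E ≤ (log X) ^ δ`, almost every interval `(x, x + exp (log X / E)]` with
`X ≤ x < 2 X` contains a run of composite numbers of length at least
`c log X (log log X) ^ 2 log (2 + log ρ) / (log E log (2 ρ))`; the number of exceptional integers
`x` is at most `X / (log X) ^ A`. For `E` a power of `log log X` this is the record order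
`log X (log₂ X)² log₄ X / (log₃ X)²`, for `E = (log X) ^ θ` it is `log X log log X`, and the
theorem describes the whole transition between the two.
-/

set_option autoImplicit false

namespace Pool.Agent.Results.MP_3bc45c_nt.TradeOffInShortIntervals

open Finset

open scoped Classical

theorem result (A : ℕ) (δ : ℝ) (hδ : 0 < δ) (hδ1 : δ < 1) : ∃ c : ℝ, 0 < c ∧
    ∃ X₀ : ℝ, ∀ X : ℕ, X₀ ≤ X → ∀ E : ℝ, Real.log (Real.log X) ≤ E → E ≤ (Real.log X) ^ δ →
      (((Finset.Ico X (2 * X)).filter (fun x : ℕ => ¬ ∃ n m : ℕ, x < n ∧
        (m : ℝ) ≤ x + Real.exp (Real.log X / E) ∧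
        c * (Real.log X * (Real.log (Real.log X)) ^ 2 *
          Real.log (2 + Real.log (Real.log (Real.log X) / Real.log E)) /
            (Real.log E * Real.log (2 * (Real.log (Real.log X) / Real.log E)))) ≤ (m : ℝ) - n ∧
        ∀ k ∈ Finset.Icc n m, ¬ k.Prime)).card : ℝ) ≤ X / (Real.log X) ^ A :=
  Pool.Agent.H76.TT.trade A δ hδ hδ1

end Pool.Agent.Results.MP_3bc45c_nt.TradeOffInShortIntervals
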